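import Pool.Agent.W_MP_f12850_co.Lin
import Pool.Agent.W_MP_f12850_co.Mod5

/-!
# MP_f12850_co: a symmetric conference matrix that is not S-equivalent to a regular Belevitch form

We give an explicit symmetric conference matrix `C` of order `50` that is not S-equivalent to any
matrix with property (R).  In order `50` property (R) forces the row sums `a` (even) and `b` (odd)
of the blocks to satisfy `a ^ 2 + b ^ 2 = 49`, so `a = 0`, `b = ± 7`, and then `(1; ± 1)` is a `±1`
eigenvector for the eigenvalue `-7`; the existence of such an eigenvector is invariant under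
S-equivalence.  The matrix `C` has none: modulo `5` the last 25 coordinates of an eigenvector
depend linearly on the first 25, and an exhaustive search in the kernel shows that no choice of
`±1` in the first 25 coordinates gives `±1` in the last 25.
-/

namespace Pool.Agent.Results.MP_f12850_co.NotRegularBelevitch

open Matrix Finset Pool.Agent.W_MP_f12850_co

/-- The matrix. -/
noncomputable def C50 : Matrix (Fin (25 + 25)) (Fin (25 + 25)) ℝ :=
  Matrix.of fun i j => (ent i j : ℝ)

theorem ent_self (i : ℕ) : ent i i = 0 := by simp [ent]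

theorem ent_pm (i j : ℕ) (h : i ≠ j) : ent i j = 1 ∨ ent i j = -1 := by
  unfold ent
  rw [if_neg h]
  split_ifs <;> simp

theorem C50_conf : IsSymConference C50 where
  diag i := by simp [C50, ent_self]
  offDiag i j h := by
    have h' : (i : ℕ) ≠ j := fun e => h (Fin.ext e)
    rcases ent_pm i j h' with e | e <;> simp [C50, e]
  symm := by
    ext i j
    simp only [C50, Matrix.transpose_apply, Matrix.of_apply]
    rw [ent_symm j (by omega) i (by omega)]
  gram := by
    ext i j
    rw [Matrix.mul_apply]
    have h := ent_gram i j (by omega) (by omega)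
    rw [Finset.sum_range] at h
    have h' := congrArg (fun z : ℤ => (z : ℝ)) h
    simp only [Int.cast_sum, Int.cast_mul] at h'
    have e : ∑ k, C50 i k * C50ᵀ k j = ∑ k : Fin 50, (ent i k : ℝ) * (ent j k : ℝ) := by
      rfl
    rw [e, h', Matrix.smul_apply, Matrix.one_apply]
    by_cases hij : i = j
    · subst hij; simp; norm_num
    · have h' : (i : ℕ) ≠ j := fun e => hij (Fin.ext e)
      simp [hij, h']

theorem C50_zeroPM : ZeroPM C50 := ⟨C50_conf.diag, C50_conf.offDiag⟩

theorem not_hasPM : ¬ HasPM C50 := by
  rintro ⟨x, hx, hx'⟩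
  classical
  set y : ℕ → ℤ := fun k => if h : k < 50 then (if x ⟨k, h⟩ = 1 then 1 else -1) else 1 with hy
  have hyx : ∀ k : Fin 50, ((y k : ℤ) : ℝ) = x k := by
    intro k
    simp only [hy, Fin.is_lt, dif_pos, Fin.eta]
    rcases hx k with e | e
    · simp [e]
    · rw [e]; norm_num
  refine no_pm y (fun k => ?_) (fun i hi => ?_)
  · simp only [hy]; split_ifs <;> simp
  · have h := hx' ⟨i, hi⟩
    rw [Finset.sum_range]
    have : ((∑ k : Fin 50, ent i k * y k : ℤ) : ℝ) = ((-7 * y i : ℤ) : ℝ) := by
      push_cast
      have hyi := hyx ⟨i, hi⟩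
      simp only at hyi
      rw [hyi, ← h]
      refine Finset.sum_congr rfl fun k _ => ?_
      rw [hyx k]
      rfl
    exact_mod_cast this

/-- **Main theorem.** There is a symmetric conference matrix `C` (of order `50`) such that no
matrix S-equivalent to `C` has property (R). -/
theorem result : ∃ C : Matrix (Fin (25 + 25)) (Fin (25 + 25)) ℝ,
    IsSymConference C ∧
      ∀ C' : Matrix (Fin (25 + 25)) (Fin (25 + 25)) ℝ, SEquiv C C' → ¬ PropertyR C' :=
  ⟨C50, C50_conf, fun _ h hR =>
    not_hasPM (h.hasPM (hasPM_of_propertyR (h.zeroPM C50_zeroPM) hR))⟩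

end Pool.Agent.Results.MP_f12850_co.NotRegularBelevitch
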